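import Pool.Agent.Helper65.TR.Neg

set_option autoImplicit false

/-!
# The numbers of prime factors of the terms of the Syracuse orbits of negative odd integers

Let `Syr` be the Syracuse map. Every periodic orbit `Z` of negative odd integers, known or not, has a basin
of positive density, and Q1 says that the basins of the three known ones contain all negative odd integers
(`EntranceLaw`). Let `f` be an additive function with `|f(p)| ≤ 1` at the primes and divergent variance
`∑ f(p)² / p`, for example the number of prime factors, with or without multiplicity.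

We prove the Erdős–Kac law for the orbit of almost every single integer of every basin, from the start down
to the entrance into the cycle: the normalised values of `f` at `|Syr^k N|`, …, `|Syr^(k+m-1) N|` have, as `k`
varies, asymptotically the joint law of `m` independent standard normal variables, and they are independent
of the residue class of `Syr^k N` modulo any `M` (so of the next exponents `x_i` of Q1) and of its leading
digits. In particular this describes almost all complete orbits if Q1 is true.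

The corresponding theorem for positive integers is `MP_2d22f3_nt.ErdosKacAlongTrajectories`. From the
starting files: the sampling principle for the map `n / 2`, `(3 n - 1) / 2` on the positive integers, the law
of the entrance times (`EntranceLaw`), Mertens' theorem.
From Mathlib: `ArithmeticFunction.cardDistinctFactors`, `ArithmeticFunction.cardFactors`: the numbers of
the prime factors without and with multiplicity; `Int.fract`; `Real.logb B`, the logarithm in base `B`;
`ProbabilityTheory.gaussianReal 0 1`, the standard normal law.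
From `EntranceLaw`: `Syr`; `IsCycle Z`: `Z` is the set of the terms of a periodic orbit of negative odd
integers; `Enters Z k N`: the orbit of `N` enters `Z` after exactly `k` steps; `HasDensity`: natural density
among the negative odd integers; `C₁`, `C₂`, `C₃`: the three known cycles.
-/

namespace Pool.Agent.Results.MP_005f52_nt.ErdosKacInBasins

open Filter Topology
open Pool.Agent.Results.MP_005f52_nt.EntranceLaw (Syr IsCycle Enters HasDensity C₁ C₂ C₃)

/-- `f` is additive. -/
def IsAdditive (f : ℕ → ℝ) : Prop := ∀ m n : ℕ, 1 ≤ m → 1 ≤ n → Nat.Coprime m n → f (m * n) = f m + f n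

/-- `∑ f(p) / p` over the primes `p ≤ x` -/
noncomputable def mean (f : ℕ → ℝ) (x : ℕ) : ℝ := ∑ p ∈ (Finset.Icc 1 x).filter Nat.Prime, f p / p

/-- `∑ f(p)² / p` over the primes `p ≤ x` -/
noncomputable def variance (f : ℕ → ℝ) (x : ℕ) : ℝ := ∑ p ∈ (Finset.Icc 1 x).filter Nat.Prime, f p ^ 2 / p

/-- `f` is additive, `|f(p)| ≤ 1` at the primes, the variance diverges, and `a`, `b` are normalising
functions: `a = mean + o(√variance)`, `b ~ √variance`. -/
def Normalises (f a b : ℕ → ℝ) : Prop :=
  IsAdditive f ∧ (∀ p, Nat.Prime p → |f p| ≤ 1) ∧ Tendsto (variance f) atTop atTop ∧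
    Tendsto (fun x => (a x - mean f x) / Real.sqrt (variance f x)) atTop (𝓝 0) ∧
    Tendsto (fun x => b x / Real.sqrt (variance f x)) atTop (𝓝 1)

/-- The distribution function of the standard normal law. -/
noncomputable def Phi (y : ℝ) : ℝ := (ProbabilityTheory.gaussianReal 0 1).real (Set.Iic y)

open Classical in
/-- The number of `k < t` such that `Syr^k N` is congruent to `r` modulo `M` and the fractional part of the
logarithm of `|Syr^k N|` in base `B` is in `[α, β)`. -/
noncomputable def visits (M : ℕ) (r : ℤ) (B α β : ℝ) (N : ℤ) (t : ℕ) : ℕ :=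
  ((Finset.range t).filter (fun k => Syr^[k] N ≡ r [ZMOD M] ∧
    α ≤ Int.fract (Real.logb B (Syr^[k] N).natAbs) ∧ Int.fract (Real.logb B (Syr^[k] N).natAbs) < β)).card

open Classical in
/-- The number of these `k < t` such that moreover `f(x) ≤ a(x) + y_i b(x)` at `x = |Syr^(k+i) N|`, for
all `i < m`. -/
noncomputable def hits (f a b : ℕ → ℝ) (m : ℕ) (y : ℕ → ℝ) (M : ℕ) (r : ℤ) (B α β : ℝ) (N : ℤ) (t : ℕ) : ℕ :=
  ((Finset.range t).filter (fun k => (Syr^[k] N ≡ r [ZMOD M] ∧
    α ≤ Int.fract (Real.logb B (Syr^[k] N).natAbs) ∧ Int.fract (Real.logb B (Syr^[k] N).natAbs) < β) ∧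
    ∀ i < m, f (Syr^[k + i] N).natAbs ≤ a (Syr^[k + i] N).natAbs + y i * b (Syr^[k + i] N).natAbs)).card

/-! ### translation -/

open Pool.Agent.Helper65 (TR.Rare)
open Pool.Agent.Helper65.TR (S gw Below ldr cl g0 psi Ip ch syr_neg neg_inter neg_one complete_rare basins)

lemma norm_of {f a b : ℕ → ℝ} (h : Normalises f a b) : Pool.Agent.Helper65.TR.Normal f a b :=
  ⟨h.1, h.2.1, h.2.2.1, h.2.2.2.1, h.2.2.2.2⟩

lemma of_norm {f a b : ℕ → ℝ} (h : Pool.Agent.Helper65.TR.Normal f a b) : Normalises f a b :=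
  ⟨h.add, h.bd, h.div, h.ha, h.hb⟩

lemma natAbs_eq {n : ℕ} (hn : n % 2 = 1) (k : ℕ) : (Syr^[k] (-(n : ℤ))).natAbs = (S (-1))^[k] n := by
  rw [syr_neg hn, Int.natAbs_neg, Int.natAbs_natCast]

/-- the residue class of the absolute value -/
def res (M : ℕ) (r : ℤ) : ℕ := ((-r) % (M : ℤ)).toNat

lemma res_iff {M : ℕ} (hM : 1 ≤ M) (r : ℤ) (x : ℕ) : -(x : ℤ) ≡ r [ZMOD M] ↔ x % M = res M r := by
  have h1 : (-(x : ℤ) ≡ r [ZMOD M]) ↔ ((x : ℤ) ≡ -r [ZMOD M]) := by
    constructor
    · intro h
      have := h.neg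
      rwa [neg_neg] at this
    · intro h
      have := h.neg
      rwa [neg_neg] at this
  rw [h1]
  unfold res Int.ModEq
  have h2 : 0 ≤ (-r) % (M : ℤ) := Int.emod_nonneg _ (by omega)
  constructor
  · intro h
    rw [← h]
    have : ((x : ℤ) % (M : ℤ)) = ((x % M : ℕ) : ℤ) := by push_cast; rfl
    rw [this, Int.toNat_natCast]
  · intro h
    have h3 : (((-r) % (M : ℤ)).toNat : ℤ) = (-r) % (M : ℤ) := Int.toNat_of_nonneg h2
    rw [← h3, ← h]
    push_cast
    rfl

lemma card_ind (t : ℕ) (P : ℕ → Prop) [DecidablePred P] : (((Finset.range t).filter P).card : ℝ) =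
    ∑ k ∈ Finset.range t, if P k then (1 : ℝ) else 0 := by
  rw [Finset.card_filter]
  push_cast
  rfl

open Classical in
lemma if_split (p q : Prop) (P : ℝ) : (if p then (1 : ℝ) else 0) * ((if q then (1 : ℝ) else 0) - P) =
    (if p ∧ q then (1 : ℝ) else 0) - P * (if p then (1 : ℝ) else 0) := by
  by_cases h1 : p <;> by_cases h2 : q <;> simp [h1, h2]

/-- the sums of the general theory -/
lemma sum_eq {f a b : ℕ → ℝ} {m : ℕ} {y : ℕ → ℝ} {M : ℕ} (hM : 1 ≤ M) {r : ℤ} {B α β : ℝ} {n : ℕ} (hn : n % 2 = 1) (t : ℕ) :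
    ∑ k ∈ Finset.range t, gw (-1) (Below f a b) Pool.Agent.Helper65.EK.Phi y m M (res M r) (ldr B α β) ((S (-1))^[k] n) =
      (hits f a b m y M r B α β (-(n : ℤ)) t : ℝ) - (∏ i ∈ Finset.range m, Phi (y i)) * visits M r B α β (-(n : ℤ)) t := by
  classical
  unfold hits visits
  rw [card_ind, card_ind, Finset.mul_sum, ← Finset.sum_sub_distrib]
  apply Finset.sum_congr rfl
  intro k _
  simp only [natAbs_eq hn]
  rw [syr_neg hn]
  have hodd := Pool.Agent.Helper65.TR.Si_odd (Or.inr rfl : (-1 : ℤ) = 1 ∨ (-1 : ℤ) = -1) hn k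
  unfold gw g0
  rw [if_pos hodd]
  unfold psi
  have hIp : Ip (-1) (Below f a b) y m ((S (-1))^[k] n) =
      if ∀ i < m, f ((S (-1))^[k + i] n) ≤ a ((S (-1))^[k + i] n) + y i * b ((S (-1))^[k + i] n) then (1 : ℝ) else 0 := by
    unfold Ip
    have h1 : ∀ i, (S (-1))^[i] ((S (-1))^[k] n) = (S (-1))^[k + i] n := by
      intro i
      rw [add_comm, Function.iterate_add_apply]
    simp only [h1]
    split_ifs with h
    · apply Finset.prod_eq_one
      intro i hi
      unfold ch
      exact if_pos (h i (Finset.mem_range.1 hi))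
    · push Not at h
      obtain ⟨i, hi, h2⟩ := h
      apply Finset.prod_eq_zero (Finset.mem_range.2 hi)
      unfold ch
      exact if_neg (not_le.2 h2)
  rw [hIp]
  have hv : ldr B α β ((S (-1))^[k] n) * cl M (res M r) ((S (-1))^[k] n) = if (-(((S (-1))^[k] n : ℕ) : ℤ) ≡ r [ZMOD M] ∧
      α ≤ Int.fract (Real.logb B ((S (-1))^[k] n : ℕ)) ∧ Int.fract (Real.logb B ((S (-1))^[k] n : ℕ)) < β) then (1 : ℝ) else 0 := by
    have hres := res_iff hM r ((S (-1))^[k] n)
    unfold ldr cl
    by_cases h1 : (S (-1))^[k] n % M = res M r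
    · by_cases h2 : α ≤ Int.fract (Real.logb B ((S (-1))^[k] n : ℕ)) ∧ Int.fract (Real.logb B ((S (-1))^[k] n : ℕ)) < β
      · rw [if_pos h2, if_pos h1, if_pos ⟨hres.2 h1, h2⟩, one_mul]
      · simp only [h2, and_false, if_false, zero_mul]
    · have h3 : ¬ (-(((S (-1))^[k] n : ℕ) : ℤ) ≡ r [ZMOD M]) := fun h => h1 (hres.1 h)
      simp only [h1, h3, false_and, if_false, mul_zero]
  rw [hv]
  have hP : ∏ i ∈ Finset.range m, Pool.Agent.Helper65.EK.Phi (y i) = ∏ i ∈ Finset.range m, Phi (y i) := rfl
  rw [hP]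
  convert if_split _ _ _

/-- **Erdős–Kac law along the Syracuse orbits of the negative odd integers.**

1. The hypothesis `Normalises f a b` holds for every additive `f` with `|f(p)| ≤ 1` at the primes and
divergent variance, with its mean and the square root of its variance, and for the numbers of prime
factors, without and with multiplicity, with `log log x` and its square root.

Let `Normalises f a b`, let `m` be the number of consecutive terms and `y_i` thresholds, `M, r` a residue
class, `B, α, β` a range of leading digits (`M = 1, α = 0, β = 1` gives all terms), `ε > 0`.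

2. For almost all negative odd `N`, for all `t ≤ log |N| / log (4/3)`: among the `k < t` with
`Syr^k N ≡ r mod M` and with leading digits in the range, the proportion `∏ Φ(y_i)` satisfies
`f(x) ≤ a(x) + y_i b(x)` at `x = |Syr^(k+i) N|` for all `i < m`, up to `ε log |N|`.

3. Every cycle `Z` has a basin of density `δ Z > 0`, and the `N` whose orbit enters `Z`, after exactly `h`
steps with `h = (1 / log (4/3) + O(ε)) log |N|`, and satisfies this law up to that time, with the error
`ε h`, have the same density `δ Z`. The three known cycles: their densities add up to `1` iff Q1 is true. -/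
theorem result :
    ((∀ f : ℕ → ℝ, IsAdditive f → (∀ p, Nat.Prime p → |f p| ≤ 1) → Tendsto (variance f) atTop atTop →
        Normalises f (mean f) (fun x => Real.sqrt (variance f x))) ∧
      Normalises (fun n => (ArithmeticFunction.cardDistinctFactors n : ℝ))
        (fun x => Real.log (Real.log x)) (fun x => Real.sqrt (Real.log (Real.log x))) ∧
      Normalises (fun n => (ArithmeticFunction.cardFactors n : ℝ))
        (fun x => Real.log (Real.log x)) (fun x => Real.sqrt (Real.log (Real.log x)))) ∧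
    (∀ f a b : ℕ → ℝ, Normalises f a b → ∀ (m : ℕ) (y : ℕ → ℝ) (M : ℕ) (r : ℤ) (B α β ε : ℝ), 1 ≤ M → 1 < B →
      0 ≤ α → α ≤ β → β ≤ 1 → 0 < ε →
        HasDensity (fun N => ∀ t : ℕ, (t : ℝ) ≤ 1 / Real.log (4 / 3) * Real.log N.natAbs →
          |(hits f a b m y M r B α β N t : ℝ) - (∏ i ∈ Finset.range m, Phi (y i)) * visits M r B α β N t| ≤
            ε * Real.log N.natAbs) 1) ∧
    ∃ δ : Finset ℤ → ℝ,
      (∀ Z : Finset ℤ, IsCycle Z → 0 < δ Z ∧ HasDensity (fun N => ∃ k : ℕ, Syr^[k] N ∈ Z) (δ Z) ∧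
        ∀ f a b : ℕ → ℝ, Normalises f a b → ∀ (m : ℕ) (y : ℕ → ℝ) (M : ℕ) (r : ℤ) (B α β ε : ℝ), 1 ≤ M → 1 < B →
          0 ≤ α → α ≤ β → β ≤ 1 → 0 < ε →
            HasDensity (fun N => ∃ h : ℕ, Enters Z h N ∧
              |(h : ℝ) - 1 / Real.log (4 / 3) * Real.log N.natAbs| ≤ ε * Real.log N.natAbs ∧
              |(hits f a b m y M r B α β N h : ℝ) - (∏ i ∈ Finset.range m, Phi (y i)) * visits M r B α β N h| ≤
                ε * h) (δ Z)) ∧
      (IsCycle C₁ ∧ IsCycle C₂ ∧ IsCycle C₃ ∧
        (δ C₁ + δ C₂ + δ C₃ = 1 ↔ ∀ N, N < 0 → Odd N → ∃ k : ℕ, Syr^[k] N ∈ C₁ ∪ C₂ ∪ C₃)) := by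
  refine ⟨⟨fun f h1 h2 h3 => of_norm (Pool.Agent.Helper65.TR.normal_self h1 h2 h3),
    of_norm (Pool.Agent.Helper65.TR.normal_loglog Pool.Agent.Helper65.TR.add_om fun p hp => Pool.Agent.Helper65.TR.om_prime hp),
    of_norm (Pool.Agent.Helper65.TR.normal_loglog Pool.Agent.Helper65.TR.add_Om fun p hp => Pool.Agent.Helper65.TR.Om_prime hp)⟩,
    ?_, ?_⟩
  · intro f a b h m y M r B α β ε hM hB hα hαβ hβ hε
    have h4 := Pool.Agent.Helper65.TR.almost (Or.inr rfl : (-1 : ℤ) = 1 ∨ (-1 : ℤ) = -1) (norm_of h) m y hM (res M r) hB hα hαβ hβ hε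
    refine neg_inter neg_one (h4.mono ?_) (fun _ _ _ _ => trivial)
    rintro n _ ⟨hn, _, hR⟩
    refine ⟨hn, fun hall => hR fun t ht => ?_⟩
    rw [Int.natAbs_neg, Int.natAbs_natCast] at ht ⊢
    have := hall t ht
    rwa [sum_eq hM hn] at this
  · obtain ⟨δ, h1, h2, h3, h4, _, h5⟩ := basins
    refine ⟨δ, fun Z hZ => ?_, h2, h3, h4, h5⟩
    obtain ⟨a1, a2, a3⟩ := h1 Z hZ
    refine ⟨a1, a2, fun f a b h m y M r B α β ε hM hB hα hαβ hβ hε => ?_⟩
    have h6 := complete_rare (Z := Z) (G := gw (-1) (Below f a b) Pool.Agent.Helper65.EK.Phi y m M (res M r) (ldr B α β))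
      (Pool.Agent.Helper65.TR.gw_le Pool.Agent.Helper65.TR.Phi01 y m M (res M r) (Pool.Agent.Helper65.TR.ldr_le B α β))
      (fun ε hε => Pool.Agent.Helper65.TR.almost (Or.inr rfl : (-1 : ℤ) = 1 ∨ (-1 : ℤ) = -1) (norm_of h) m y hM (res M r) hB hα hαβ hβ hε)
      a3 hε
    refine neg_inter a2 (h6.mono ?_) ?_
    · rintro n _ ⟨hn, hp, hR⟩
      refine ⟨hn, hp, fun ⟨k, b1, b2, b3⟩ => hR ⟨k, b1, ?_, ?_⟩⟩
      · rw [Int.natAbs_neg, Int.natAbs_natCast]
        exact b2
      · rwa [sum_eq hM hn] at b3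
    · rintro N _ _ ⟨k, hk, _⟩
      exact ⟨k, hk.1⟩

end Pool.Agent.Results.MP_005f52_nt.ErdosKacInBasins
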