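import Pool.Agent.Helper65.TR.Sqf

set_option autoImplicit false

/-!
# The Liouville and the Moebius function along the Syracuse orbits of the negative odd integers

Let `Syr` be the Syracuse map. Every periodic orbit `Z` of negative odd integers, known or not, has a basin
of positive density, and Q1 says that the basins of the three known ones contain all negative odd integers
(`EntranceLaw`). For almost every single integer `N` of every basin we describe the numbers of the prime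
factors of the terms of the orbit of `N`, from the start down to the entrance into the cycle: the Liouville
and the Moebius function of `|Syr^k N|` have mean value zero, also with linear phases and slowly varying
weights; the value of the Liouville function is independent of the residue class of the term modulo any `M`
(so of the next exponents `x_i` of Q1) and of its leading digits; and the Moebius function takes each of the
values `1` and `-1` with the frequency `9 / (2 π²)`.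

Some theorems for the terms of the Collatz trajectories of positive integers, with the halvings, are in
`MP_2d22f3_nt.LiouvilleAlongTrajectories`. From the starting files: the theorem of Matomäki, Radziwiłł and
Tao on short exponential sums, the sampling principle for the map `n / 2`, `(3 n - 1) / 2`, the law of the
entrance times (`EntranceLaw`).
From Mathlib: `ArithmeticFunction.cardFactors` (`Ω`), `ArithmeticFunction.moebius`, `Int.fract`,
`Real.logb B`, the logarithm in base `B`.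
From `EntranceLaw`: `Syr`; `IsCycle Z`: `Z` is the set of the terms of a periodic orbit of negative odd
integers; `Enters Z k N`: the orbit of `N` enters `Z` after exactly `k` steps; `HasDensity`: natural density
among the negative odd integers; `C₁`, `C₂`, `C₃`: the three known cycles.
-/

namespace Pool.Agent.Results.MP_005f52_nt.MoebiusInBasins

open Filter Topology
open Pool.Agent.Results.MP_005f52_nt.EntranceLaw (Syr IsCycle Enters HasDensity C₁ C₂ C₃)

/-- The Liouville function `λ(n) = (-1) ^ Ω(n)`. -/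
noncomputable def liouville (n : ℕ) : ℤ := (-1) ^ ArithmeticFunction.cardFactors n

/-- The Moebius function. -/
noncomputable def moebius (n : ℕ) : ℤ := ArithmeticFunction.moebius n

/-- `exp (2 π i θ)` -/
noncomputable def e (θ : ℝ) : ℂ := Complex.exp (2 * Real.pi * θ * Complex.I)

/-- `v` has values in the unit disc and its total variation up to `N` is `o(N)`. -/
def Slow (v : ℕ → ℂ) : Prop := (∀ n, ‖v n‖ ≤ 1) ∧
  Tendsto (fun N : ℕ => (∑ n ∈ Finset.Icc 1 N, ‖v (n + 1) - v n‖) / N) atTop (𝓝 0)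

/-- `Syr^k N` is congruent to `r` modulo `M` and the fractional part of the logarithm of its absolute value
in base `B` is in `[a, b)`. -/
def Meets (M : ℕ) (r : ℤ) (B a b : ℝ) (N : ℤ) (k : ℕ) : Prop := Syr^[k] N ≡ r [ZMOD M] ∧
  a ≤ Int.fract (Real.logb B (Syr^[k] N).natAbs) ∧ Int.fract (Real.logb B (Syr^[k] N).natAbs) < b

open Classical in
/-- The number of `k < t` with `Meets M r B a b N k`. -/
noncomputable def visits (M : ℕ) (r : ℤ) (B a b : ℝ) (N : ℤ) (t : ℕ) : ℕ :=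
  ((Finset.range t).filter (fun k => Meets M r B a b N k)).card

open Classical in
/-- The number of `k < t` with `Meets M r B a b N k` and `λ(|Syr^k N|) = s`. -/
noncomputable def visitsLiouville (s : ℤ) (M : ℕ) (r : ℤ) (B a b : ℝ) (N : ℤ) (t : ℕ) : ℕ :=
  ((Finset.range t).filter (fun k => Meets M r B a b N k ∧ liouville (Syr^[k] N).natAbs = s)).card

/-- The number of `k < t` with `μ(|Syr^k N|) = s`. -/
noncomputable def visitsMoebius (s : ℤ) (N : ℤ) (t : ℕ) : ℕ :=
  ((Finset.range t).filter (fun k => moebius (Syr^[k] N).natAbs = s)).card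

/-- The discrepancy `D N t` is small for almost all `N`: for all `ε > 0`, the `N` with `D N t ≤ ε log |N|`
for all `t ≤ log |N| / log (4/3)` have density one, and for every cycle `Z` the `N` whose orbit enters `Z`,
after exactly `h` steps, with `h` within `ε log |N|` of `log |N| / log (4/3)` and `D N h ≤ ε h`, have the
density `δ Z`. -/
def Small (δ : Finset ℤ → ℝ) (D : ℤ → ℕ → ℝ) : Prop := ∀ ε : ℝ, 0 < ε →
  HasDensity (fun N => ∀ t : ℕ, (t : ℝ) ≤ 1 / Real.log (4 / 3) * Real.log N.natAbs →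
    D N t ≤ ε * Real.log N.natAbs) 1 ∧
  ∀ Z : Finset ℤ, IsCycle Z → HasDensity (fun N => ∃ h : ℕ, Enters Z h N ∧
    |(h : ℝ) - 1 / Real.log (4 / 3) * Real.log N.natAbs| ≤ ε * Real.log N.natAbs ∧ D N h ≤ ε * h) (δ Z)

/-! ### general form -/

open Pool.Agent.Helper65 (TR.Rare)
open Pool.Agent.Helper65.TR (S syr_neg neg_inter neg_one complete_rare basins rare_fin lz_syr LZ LZs lzs_f sqi gs kap
  gs_LZ gs_le gs_even kap_pos kap_le sqi_01)

lemma hm1 : (-1 : ℤ) = 1 ∨ (-1 : ℤ) = -1 := Or.inr rfl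

lemma natAbs_eq {n : ℕ} (hn : n % 2 = 1) (k : ℕ) : (Syr^[k] (-(n : ℤ))).natAbs = (S (-1))^[k] n := by
  rw [syr_neg hn, Int.natAbs_neg, Int.natAbs_natCast]

lemma enters_unique {Z : Finset ℤ} {h h' : ℕ} {N : ℤ} (a : Enters Z h N) (b : Enters Z h' N) : h = h' := by
  rcases lt_trichotomy h h' with c | c | c
  · exact absurd a.1 (b.2 h c)
  · exact c
  · exact absurd b.1 (a.2 h' c)

theorem small_of {δ : Finset ℤ → ℝ}
    (hδ : ∀ Z : Finset ℤ, IsCycle Z → 0 < δ Z ∧ HasDensity (fun N => ∃ k : ℕ, Syr^[k] N ∈ Z) (δ Z) ∧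
      ∀ ε : ℝ, 0 < ε → TR.Rare (fun n => n % 2 = 1 ∧ (∃ k : ℕ, Syr^[k] (-(n : ℤ)) ∈ Z) ∧ ¬ ∃ h : ℕ, Enters Z h (-(n : ℤ)) ∧
      |(h : ℝ) - 1 / Real.log (4 / 3) * Real.log n| ≤ ε * Real.log n))
    {D : ℤ → ℕ → ℝ} {G₁ G₂ : ℕ → ℝ} {C : ℝ}
    (a1 : ∀ x, |G₁ x| ≤ 1) (b1 : ∀ x, x % 2 = 0 → G₁ x = 0) (c1 : LZ G₁)
    (a2 : ∀ x, |G₂ x| ≤ 1) (b2 : ∀ x, x % 2 = 0 → G₂ x = 0) (c2 : LZ G₂)
    (hD : ∀ n t : ℕ, n % 2 = 1 → D (-(n : ℤ)) t ≤ C + |∑ k ∈ Finset.range t, G₁ ((S (-1))^[k] n)| +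
      |∑ k ∈ Finset.range t, G₂ ((S (-1))^[k] n)|) : Small δ D := by
  have r1 : ∀ ε : ℝ, 0 < ε → _ := fun ε hε => lz_syr hm1 b1 a1 c1 (ε := ε) hε
  have r2 : ∀ ε : ℝ, 0 < ε → _ := fun ε hε => lz_syr hm1 b2 a2 c2 (ε := ε) hε
  intro ε hε
  set η : ℝ := min (ε / 3) 1 with hη
  have hη0 : 0 < η := by positivity
  have hη1 : η ≤ 1 := min_le_right _ _
  have hη2 : η ≤ ε / 3 := min_le_left _ _
  have r3 : TR.Rare (fun n : ℕ => ¬ (C ≤ η * Real.log n)) := by
    apply rare_fin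
    have h6 : Tendsto (fun n : ℕ => η * Real.log n) atTop atTop :=
      (Real.tendsto_log_atTop.comp tendsto_natCast_atTop_atTop).const_mul_atTop hη0
    filter_upwards [h6.eventually_ge_atTop C] with n hn1
    exact not_not.2 hn1
  constructor
  · refine neg_inter neg_one ((((r1 η hη0).or (r2 η hη0)).or r3).mono ?_) (fun _ _ _ _ => trivial)
    rintro n hn1 ⟨hn, _, hR⟩
    by_contra hcon
    push Not at hcon
    obtain ⟨⟨d1, d2⟩, d3⟩ := hcon
    apply hR
    intro t ht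
    rw [Int.natAbs_neg, Int.natAbs_natCast] at ht ⊢
    have h1 := d1 hn t ht
    have h2 := d2 hn t ht
    have h3 := hD n t hn
    have hL : 0 ≤ Real.log n := Real.log_nonneg (by exact_mod_cast hn1)
    have h4 := mul_le_mul_of_nonneg_right hη2 hL
    linarith
  · intro Z hZ
    obtain ⟨_, e2, e3⟩ := hδ Z hZ
    have s1 := complete_rare (Z := Z) a1 r1 e3 hη0
    have s2 := complete_rare (Z := Z) a2 r2 e3 hη0
    have hc2 : 2 ≤ 1 / Real.log (4 / 3) := by
      rw [le_div_iff₀ (Real.log_pos (by norm_num))]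
      have : Real.log (4 / 3) ≤ 4 / 3 - 1 := Real.log_le_sub_one_of_pos (by norm_num)
      linarith
    refine neg_inter e2 (((s1.or s2).or r3).mono ?_) ?_
    · rintro n hn1 ⟨hn, hp, hR⟩
      by_contra hcon
      push Not at hcon
      obtain ⟨⟨d1, d2⟩, d3⟩ := hcon
      obtain ⟨h, f1, f2, f3⟩ := d1 hn hp
      obtain ⟨h', g1, g2, g3⟩ := d2 hn hp
      have hh := enters_unique f1 g1
      subst hh
      apply hR
      have hL : 0 ≤ Real.log n := Real.log_nonneg (by exact_mod_cast hn1)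
      have h3 := hD n h hn
      have h4 := mul_le_mul_of_nonneg_right (hη2.trans (by linarith : ε / 3 ≤ ε)) hL
      have h7 : Real.log n ≤ h := by
        rw [abs_le] at f2
        nlinarith
      have h8 : η * Real.log n ≤ η * h := mul_le_mul_of_nonneg_left h7 hη0.le
      have h9 : η * h ≤ ε / 3 * h := mul_le_mul_of_nonneg_right hη2 (Nat.cast_nonneg _)
      refine ⟨h, f1, ?_, by linarith⟩
      rw [Int.natAbs_neg, Int.natAbs_natCast]
      linarith
    · rintro N _ _ ⟨k, hk, _⟩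
      exact ⟨k, hk.1⟩

/-! ### the functions -/

theorem liouville_sq (n : ℕ) : liouville n = 1 ∨ liouville n = -1 := by
  unfold liouville
  exact neg_one_pow_eq_or ℤ _

theorem expo_fun {f : ℕ → ℤ} (hf : f = liouville ∨ f = moebius) : Pool.Agent.Helper65.LT.Expo (fun n => (f n : ℂ)) :=
  Pool.Agent.Results.MP_2d22f3_nt.LiouvilleAlongTrajectories.expo_fun hf

theorem norm_fun {f : ℕ → ℤ} (hf : f = liouville ∨ f = moebius) (n : ℕ) : ‖(f n : ℂ)‖ ≤ 1 :=
  Pool.Agent.Results.MP_2d22f3_nt.LiouvilleAlongTrajectories.norm_fun hf n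

theorem slow_iff {v : ℕ → ℂ} (h : Tendsto (fun N : ℕ => (∑ n ∈ Finset.Icc 1 N, ‖v (n + 1) - v n‖) / N) atTop (𝓝 0)) :
    Pool.Agent.Helper65.LT.Slow v :=
  Pool.Agent.Results.MP_2d22f3_nt.LiouvilleAlongTrajectories.slow_iff h

/-- the function on the odd integers of a class, with a phase -/
noncomputable def F (f : ℕ → ℤ) (v : ℕ → ℂ) (M r : ℕ) (β : ℝ) (x : ℕ) : ℂ :=
  ((f x : ℂ) * v x * (if x % 2 = 1 then (1 : ℂ) else 0) * (if x % M = r then (1 : ℂ) else 0)) * e (β * x)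

lemma F_lzs {f : ℕ → ℤ} (hf : f = liouville ∨ f = moebius) {v : ℕ → ℂ} (hv : ∀ n, ‖v n‖ ≤ 1)
    (hs : Pool.Agent.Helper65.LT.Slow v) {M : ℕ} (hM : 0 < M) {r : ℕ} (hr : r < M) (β : ℝ) : LZs (F f v M r β) :=
  lzs_f (expo_fun hf) (norm_fun hf) hv hs hM hr β

lemma F_norm {f : ℕ → ℤ} (hf : f = liouville ∨ f = moebius) {v : ℕ → ℂ} (hv : ∀ n, ‖v n‖ ≤ 1) (M r : ℕ) (β : ℝ) (x : ℕ) :
    ‖F f v M r β x‖ ≤ 1 := by
  unfold F
  have he : ‖e (β * x)‖ = 1 := Pool.Agent.Helper65.TR.norm_e _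
  rw [norm_mul, he, mul_one, norm_mul, norm_mul, norm_mul]
  have h1 := norm_fun hf x
  have h2 := hv x
  have h3 : ‖(if x % 2 = 1 then (1 : ℂ) else 0)‖ ≤ 1 := by split_ifs <;> simp
  have h4 : ‖(if x % M = r then (1 : ℂ) else 0)‖ ≤ 1 := by split_ifs <;> simp
  have h5 : ‖(f x : ℂ)‖ * ‖v x‖ ≤ 1 := mul_le_one₀ h1 (norm_nonneg _) h2
  exact mul_le_one₀ (mul_le_one₀ h5 (norm_nonneg _) h3) (norm_nonneg _) h4

lemma F_even (f : ℕ → ℤ) (v : ℕ → ℂ) (M r : ℕ) (β : ℝ) (x : ℕ) (h : x % 2 = 0) : F f v M r β x = 0 := by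
  unfold F
  rw [if_neg (by omega)]
  ring

/-- complex sums -/
theorem small_F {δ : Finset ℤ → ℝ}
    (hδ : ∀ Z : Finset ℤ, IsCycle Z → 0 < δ Z ∧ HasDensity (fun N => ∃ k : ℕ, Syr^[k] N ∈ Z) (δ Z) ∧
      ∀ ε : ℝ, 0 < ε → TR.Rare (fun n => n % 2 = 1 ∧ (∃ k : ℕ, Syr^[k] (-(n : ℤ)) ∈ Z) ∧ ¬ ∃ h : ℕ, Enters Z h (-(n : ℤ)) ∧
      |(h : ℝ) - 1 / Real.log (4 / 3) * Real.log n| ≤ ε * Real.log n))
    {f : ℕ → ℤ} (hf : f = liouville ∨ f = moebius) {v : ℕ → ℂ} (hv : ∀ n, ‖v n‖ ≤ 1)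
    (hs : Pool.Agent.Helper65.LT.Slow v) {M : ℕ} (hM : 0 < M) {r : ℕ} (hr : r < M) (β : ℝ) {D : ℤ → ℕ → ℝ}
    (hD : ∀ n t : ℕ, n % 2 = 1 → D (-(n : ℤ)) t ≤ ‖∑ k ∈ Finset.range t, F f v M r β ((S (-1))^[k] n)‖) : Small δ D := by
  have hF := F_lzs hf hv hs hM hr β
  refine small_of hδ (G₁ := fun x => (F f v M r β x).re) (G₂ := fun x => (F f v M r β x).im) (C := 0)
    (fun x => (Complex.abs_re_le_norm _).trans (F_norm hf hv M r β x)) (fun x hx => by simp [F_even f v M r β x hx]) hF.re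
    (fun x => (Complex.abs_im_le_norm _).trans (F_norm hf hv M r β x)) (fun x hx => by simp [F_even f v M r β x hx]) hF.im ?_
  intro n t hn
  refine (hD n t hn).trans ?_
  refine (Complex.norm_le_abs_re_add_abs_im _).trans (le_of_eq ?_)
  rw [Complex.re_sum, Complex.im_sum, zero_add]

/-- the residue class of the absolute value -/
def res (M : ℕ) (r : ℤ) : ℕ := ((-r) % (M : ℤ)).toNat

lemma res_lt {M : ℕ} (hM : 1 ≤ M) (r : ℤ) : res M r < M := by
  unfold res
  have h1 : 0 ≤ (-r) % (M : ℤ) := Int.emod_nonneg _ (by omega)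
  have h2 : (-r) % (M : ℤ) < M := Int.emod_lt_of_pos _ (by omega)
  omega

lemma res_iff {M : ℕ} (hM : 1 ≤ M) (r : ℤ) (x : ℕ) : -(x : ℤ) ≡ r [ZMOD M] ↔ x % M = res M r := by
  have h1 : (-(x : ℤ) ≡ r [ZMOD M]) ↔ ((x : ℤ) ≡ -r [ZMOD M]) := by
    constructor
    · intro h
      have := h.neg
      rwa [neg_neg] at this
    · intro h
      have := h.neg
      rwa [neg_neg] at this
  rw [h1]
  unfold res Int.ModEq
  have h2 : 0 ≤ (-r) % (M : ℤ) := Int.emod_nonneg _ (by omega)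
  constructor
  · intro h
    rw [← h]
    have : ((x : ℤ) % (M : ℤ)) = ((x % M : ℕ) : ℤ) := by push_cast; rfl
    rw [this, Int.toNat_natCast]
  · intro h
    have h3 : (((-r) % (M : ℤ)).toNat : ℤ) = (-r) % (M : ℤ) := Int.toNat_of_nonneg h2
    rw [← h3, ← h]
    push_cast
    rfl

lemma e_one (x : ℕ) : e (0 * x) = 1 := by
  unfold e
  simp

lemma card_ind (t : ℕ) (P : ℕ → Prop) [DecidablePred P] : (((Finset.range t).filter P).card : ℝ) =
    ∑ k ∈ Finset.range t, if P k then (1 : ℝ) else 0 := by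
  rw [Finset.card_filter]
  push_cast
  rfl

open Classical in
lemma if_half {s l : ℤ} (hs : s = 1 ∨ s = -1) (hl : l = 1 ∨ l = -1) (p : Prop) :
    (if p ∧ l = s then (1 : ℝ) else 0) - (if p then (1 : ℝ) else 0) / 2 = s / 2 * (l * if p then (1 : ℝ) else 0) := by
  rcases hs with rfl | rfl <;> rcases hl with rfl | rfl <;> by_cases h : p <;> simp [h] <;> norm_num

/-- the counts for the Liouville function -/
lemma liouville_sum {s : ℤ} (hs : s = 1 ∨ s = -1) {M : ℕ} (hM : 1 ≤ M) (r : ℤ) (B a b : ℝ) (n t : ℕ) (hn : n % 2 = 1) :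
    |(visitsLiouville s M r B a b (-(n : ℤ)) t : ℝ) - (visits M r B a b (-(n : ℤ)) t : ℝ) / 2| ≤
      ‖∑ k ∈ Finset.range t, F liouville (Pool.Agent.Helper65.LT.lead B a b) M (res M r) 0 ((S (-1))^[k] n)‖ := by
  classical
  have h1 : (visitsLiouville s M r B a b (-(n : ℤ)) t : ℝ) - (visits M r B a b (-(n : ℤ)) t : ℝ) / 2 =
      s / 2 * ∑ k ∈ Finset.range t, ((liouville ((S (-1))^[k] n) : ℝ) * if Meets M r B a b (-(n : ℤ)) k then (1 : ℝ) else 0) := by
    unfold visitsLiouville visits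
    rw [card_ind, card_ind, Finset.sum_div, ← Finset.sum_sub_distrib, Finset.mul_sum]
    apply Finset.sum_congr rfl
    intro k _
    rw [natAbs_eq hn]
    convert if_half hs (liouville_sq ((S (-1))^[k] n)) (Meets M r B a b (-(n : ℤ)) k)
  have h2 : ∑ k ∈ Finset.range t, F liouville (Pool.Agent.Helper65.LT.lead B a b) M (res M r) 0 ((S (-1))^[k] n) =
      ((∑ k ∈ Finset.range t, ((liouville ((S (-1))^[k] n) : ℝ) * if Meets M r B a b (-(n : ℤ)) k then (1 : ℝ) else 0) : ℝ) : ℂ) := by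
    push_cast
    apply Finset.sum_congr rfl
    intro k _
    unfold F
    rw [e_one, mul_one, if_pos (Pool.Agent.Helper65.TR.Si_odd hm1 hn k), mul_one, mul_assoc]
    congr 1
    have h3 : Meets M r B a b (-(n : ℤ)) k ↔ (a ≤ Int.fract (Real.logb B ((S (-1))^[k] n : ℕ)) ∧
        Int.fract (Real.logb B ((S (-1))^[k] n : ℕ)) < b) ∧ (S (-1))^[k] n % M = res M r := by
      unfold Meets
      rw [natAbs_eq hn, syr_neg hn, res_iff hM]
      tauto
    unfold Pool.Agent.Helper65.LT.lead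
    by_cases c1 : (S (-1))^[k] n % M = res M r
    · by_cases c2 : a ≤ Int.fract (Real.logb B ((S (-1))^[k] n : ℕ)) ∧ Int.fract (Real.logb B ((S (-1))^[k] n : ℕ)) < b
      · rw [if_pos c2, if_pos c1, if_pos (h3.2 ⟨c2, c1⟩)]
        simp
      · rw [if_neg c2, if_neg (fun h => c2 (h3.1 h).1)]
        simp
    · rw [if_neg c1, if_neg (fun h => c1 (h3.1 h).2)]
      simp
  rw [h1, h2, Complex.norm_real, Real.norm_eq_abs, abs_mul]
  have h3 : |(s : ℝ) / 2| ≤ 1 := by
    rcases hs with rfl | rfl <;> norm_num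
  calc |(s : ℝ) / 2| * |∑ k ∈ Finset.range t, ((liouville ((S (-1))^[k] n) : ℝ) * if Meets M r B a b (-(n : ℤ)) k then (1 : ℝ) else 0)|
      ≤ 1 * |∑ k ∈ Finset.range t, ((liouville ((S (-1))^[k] n) : ℝ) * if Meets M r B a b (-(n : ℤ)) k then (1 : ℝ) else 0)| :=
        mul_le_mul_of_nonneg_right h3 (abs_nonneg _)
    _ = _ := one_mul _

lemma three_not {n : ℕ} (hn : n % 2 = 1) (k : ℕ) : (S (-1))^[k + 1] n % 3 ≠ 0 := by
  rw [Function.iterate_succ_apply']
  set x := (S (-1))^[k] n with hx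
  have hx1 : 1 ≤ x := Pool.Agent.Helper65.TR.Si_pos hm1 (by omega) k
  have h1 := Pool.Agent.Helper65.TR.num_eq hm1 hx1
  have h2 := Pool.Agent.Helper65.TR.num_cast hm1 hx1
  intro h3
  have h4 : 3 ∣ S (-1) x := Nat.dvd_of_mod_eq_zero h3
  have h5 : 3 ∣ Pool.Agent.Helper65.TR.num (-1) x := by
    rw [h1]
    exact Dvd.dvd.mul_left h4 _
  omega

lemma sqi_sum (n t : ℕ) (hn : n % 2 = 1) :
    |∑ k ∈ Finset.range t, (sqi ((S (-1))^[k] n) - kap)| ≤ 2 + |∑ k ∈ Finset.range t, gs ((S (-1))^[k] n)| := by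
  have h1 : ∀ k, |(sqi ((S (-1))^[k] n) - kap) - gs ((S (-1))^[k] n)| ≤ if k = 0 then 2 else 0 := by
    intro k
    have a1 := sqi_01 ((S (-1))^[k] n)
    have a2 := kap_pos
    have a3 := kap_le
    have a4 := gs_le ((S (-1))^[k] n)
    rcases Nat.eq_zero_or_pos k with h | h
    · rw [if_pos h]
      rw [abs_le] at a4 ⊢
      constructor <;> linarith
    · obtain ⟨j, rfl⟩ : ∃ j, k = j + 1 := ⟨k - 1, by omega⟩
      rw [if_neg (by omega)]
      unfold gs
      rw [if_pos ⟨Pool.Agent.Helper65.TR.Si_odd hm1 hn _, three_not hn j⟩, sub_self, abs_zero]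
  have h2 : |∑ k ∈ Finset.range t, ((sqi ((S (-1))^[k] n) - kap) - gs ((S (-1))^[k] n))| ≤ 2 := by
    refine (Finset.abs_sum_le_sum_abs _ _).trans ((Finset.sum_le_sum fun k _ => h1 k).trans ?_)
    rw [Finset.sum_ite_eq']
    split_ifs <;> norm_num
  have h3 : ∑ k ∈ Finset.range t, (sqi ((S (-1))^[k] n) - kap) =
      ∑ k ∈ Finset.range t, ((sqi ((S (-1))^[k] n) - kap) - gs ((S (-1))^[k] n)) + ∑ k ∈ Finset.range t, gs ((S (-1))^[k] n) := by
    rw [← Finset.sum_add_distrib]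
    apply Finset.sum_congr rfl
    intro k _
    ring
  rw [h3]
  exact (abs_add_le _ _).trans (by linarith)

lemma moebius_ind {s : ℤ} (hs : s = 1 ∨ s = -1) (x : ℕ) :
    (if moebius x = s then (1 : ℝ) else 0) = (sqi x + s * (moebius x : ℝ)) / 2 := by
  have h1 : sqi x = (moebius x : ℝ) ^ 2 := by
    unfold sqi moebius
    have := ArithmeticFunction.moebius_sq (n := x)
    have h2 : ((ArithmeticFunction.moebius x : ℤ) : ℝ) ^ 2 = (((ArithmeticFunction.moebius x) ^ 2 : ℤ) : ℝ) := by push_cast; rfl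
    rw [h2, this]
    split_ifs <;> simp
  rw [h1]
  have h3 : moebius x = 0 ∨ moebius x = 1 ∨ moebius x = -1 := by
    unfold moebius
    exact ArithmeticFunction.moebius_eq_or x
  rcases hs with rfl | rfl <;> rcases h3 with h | h | h <;> rw [h] <;> norm_num

/-- the counts for the Moebius function -/
lemma moebius_sum {s : ℤ} (hs : s = 1 ∨ s = -1) (n t : ℕ) (hn : n % 2 = 1) :
    |(visitsMoebius s (-(n : ℤ)) t : ℝ) - 9 / (2 * Real.pi ^ 2) * t| ≤ 2 + |∑ k ∈ Finset.range t, gs ((S (-1))^[k] n)| +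
      |∑ k ∈ Finset.range t, (F moebius (fun _ => 1) 1 0 0 ((S (-1))^[k] n)).re| := by
  classical
  have h1 : ∀ k, (F moebius (fun _ => 1) 1 0 0 ((S (-1))^[k] n)).re = (moebius ((S (-1))^[k] n) : ℝ) := by
    intro k
    unfold F
    rw [e_one, if_pos (Pool.Agent.Helper65.TR.Si_odd hm1 hn k), if_pos (Nat.mod_one _)]
    simp
  simp only [h1]
  have h2 : (visitsMoebius s (-(n : ℤ)) t : ℝ) - 9 / (2 * Real.pi ^ 2) * t =
      (1 / 2) * ∑ k ∈ Finset.range t, (sqi ((S (-1))^[k] n) - kap) + s / 2 * ∑ k ∈ Finset.range t, (moebius ((S (-1))^[k] n) : ℝ) := by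
    unfold visitsMoebius
    rw [card_ind]
    have h3 : 9 / (2 * Real.pi ^ 2) * (t : ℝ) = ∑ k ∈ Finset.range t, kap / 2 := by
      rw [Finset.sum_const, Finset.card_range, nsmul_eq_mul]
      unfold kap
      field_simp
    rw [h3, ← Finset.sum_sub_distrib, Finset.mul_sum, Finset.mul_sum, ← Finset.sum_add_distrib]
    apply Finset.sum_congr rfl
    intro k _
    rw [natAbs_eq hn, moebius_ind hs]
    ring
  rw [h2]
  have h4 := sqi_sum n t hn
  have h5 : |(1 / 2 : ℝ) * ∑ k ∈ Finset.range t, (sqi ((S (-1))^[k] n) - kap)| ≤ |∑ k ∈ Finset.range t, (sqi ((S (-1))^[k] n) - kap)| := by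
    rw [abs_mul]
    have := abs_nonneg (∑ k ∈ Finset.range t, (sqi ((S (-1))^[k] n) - kap))
    have h6 : |(1 / 2 : ℝ)| = 1 / 2 := by norm_num
    rw [h6]
    linarith
  have h6 : |(s : ℝ) / 2 * ∑ k ∈ Finset.range t, (moebius ((S (-1))^[k] n) : ℝ)| ≤ |∑ k ∈ Finset.range t, (moebius ((S (-1))^[k] n) : ℝ)| := by
    rw [abs_mul]
    have := abs_nonneg (∑ k ∈ Finset.range t, (moebius ((S (-1))^[k] n) : ℝ))
    have h7 : |(s : ℝ) / 2| = 1 / 2 := by
      rcases hs with rfl | rfl <;> norm_num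
    rw [h7]
    linarith
  refine (abs_add_le _ _).trans ?_
  linarith

/-- **The Liouville and the Moebius function along the Syracuse orbits of the negative odd integers.**
There are densities `δ Z > 0` of the basins of all cycles `Z` of negative odd integers (those of the three
known cycles add up to `1` iff Q1 is true) such that the following discrepancies are small for almost all `N`
(`Small`: up to `t = log |N| / log (4/3)` for almost all `N`, and at the entrance time in every basin):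
1. `|∑_{k < t} f(|Syr^k N|) v(|Syr^k N|) e(β |Syr^k N|)|`, for `f = λ` or `f = μ`, slowly varying `v`, real `β`;
2. the difference of the number of the `k < t` for which `Syr^k N ≡ r mod M` with leading digits in a given
range and `λ(|Syr^k N|) = s`, and half of the number without the condition on `λ`, for `s = ±1`;
3. `|#{k < t : μ(|Syr^k N|) = s} - 9 / (2 π²) t|`, for `s = ±1`. -/
theorem result : ∃ δ : Finset ℤ → ℝ,
    (∀ Z : Finset ℤ, IsCycle Z → 0 < δ Z ∧ HasDensity (fun N => ∃ k : ℕ, Syr^[k] N ∈ Z) (δ Z)) ∧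
    (IsCycle C₁ ∧ IsCycle C₂ ∧ IsCycle C₃ ∧
      (δ C₁ + δ C₂ + δ C₃ = 1 ↔ ∀ N, N < 0 → Odd N → ∃ k : ℕ, Syr^[k] N ∈ C₁ ∪ C₂ ∪ C₃)) ∧
    (∀ f : ℕ → ℤ, (f = liouville ∨ f = moebius) → ∀ v : ℕ → ℂ, Slow v → ∀ β : ℝ,
      Small δ (fun N t => ‖∑ k ∈ Finset.range t,
        f (Syr^[k] N).natAbs * v (Syr^[k] N).natAbs * e (β * (Syr^[k] N).natAbs)‖)) ∧
    (∀ (s : ℤ) (M : ℕ) (r : ℤ) (B a b : ℝ), (s = 1 ∨ s = -1) → 1 ≤ M → 1 < B → 0 ≤ a → a ≤ b → b ≤ 1 →
      Small δ (fun N t => |(visitsLiouville s M r B a b N t : ℝ) - (visits M r B a b N t : ℝ) / 2|)) ∧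
    (∀ s : ℤ, (s = 1 ∨ s = -1) →
      Small δ (fun N t => |(visitsMoebius s N t : ℝ) - 9 / (2 * Real.pi ^ 2) * t|)) := by
  obtain ⟨δ, h1, h2, h3, h4, _, h5⟩ := basins
  refine ⟨δ, fun Z hZ => ⟨(h1 Z hZ).1, (h1 Z hZ).2.1⟩, ⟨h2, h3, h4, h5⟩, ?_, ?_, ?_⟩
  · intro f hf v hv β
    refine small_F h1 hf hv.1 (slow_iff hv.2) (M := 1) (by norm_num) (r := 0) (by norm_num) β ?_
    intro n t hn
    apply le_of_eq
    congr 1
    apply Finset.sum_congr rfl
    intro k _
    unfold F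
    rw [natAbs_eq hn, if_pos (Pool.Agent.Helper65.TR.Si_odd hm1 hn k), if_pos (Nat.mod_one _), mul_one, mul_one]
  · intro s M r B a b hs hM hB ha hab hb
    exact small_F h1 (Or.inl rfl) (Pool.Agent.Helper65.LT.lead_norm B a b) (Pool.Agent.Helper65.LT.slow_lead hB ha hab hb)
      (M := M) hM (r := res M r) (res_lt hM r) 0 (fun n t hn => liouville_sum hs hM r B a b n t hn)
  · intro s hs
    have hsl : Pool.Agent.Helper65.LT.Slow (fun _ => (1 : ℂ)) := slow_iff (by simp)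
    have hF := F_lzs (f := moebius) (Or.inr rfl) (v := fun _ => (1 : ℂ)) (fun _ => by simp) hsl (M := 1) (by norm_num) (r := 0) (by norm_num) 0
    exact small_of h1 (G₁ := gs) (G₂ := fun x => (F moebius (fun _ => 1) 1 0 0 x).re) (C := 2) gs_le gs_even gs_LZ
      (fun x => (Complex.abs_re_le_norm _).trans (F_norm (Or.inr rfl) (fun _ => by simp) 1 0 0 x))
      (fun x hx => by simp [F_even moebius (fun _ => 1) 1 0 0 x hx]) hF.re
      (fun n t hn => moebius_sum hs n t hn)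

end Pool.Agent.Results.MP_005f52_nt.MoebiusInBasins
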