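import Pool.Agent.H48N.Col

set_option autoImplicit false

/-!
# Prime numbers in the orbits of the Syracuse map on the negative odd integers

For every residue class `a` modulo `q`, `a` prime to `q` (for example all primes, `q = 1`), a positive
proportion of the negative odd integers `n ≥ -N` have at least `c log log N` different terms `-p`, `p` a
prime `≡ a` modulo `q`, in their orbit under the Syracuse map. The expected number of such terms is
`(3 / log (4 / 3)) log log N / φ(q)`, so the number is of the right order.

Method. It is enough to show that for each scale `A`, among the odd integers of `(-2 A, -A]` in any class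
modulo `3 ^ m`, `m ≤ √ log A`, a proportion bounded below meets such a term within `log A / 10`
steps. For this one computes two moments of the number of such terms: the first one by the mixing of
the Syracuse offsets modulo powers of `3`, the Brun-Titchmarsh inequality modulo `3 ^ k` and the
prime number theorem in classes; the second one by a sieve for two linear forms, the mean value of the
singular factor over the words of the steps being bounded. The set of the starting points whose orbit
misses these terms in a given range is forward invariant, so the upper bound of its relative density
is inherited by all larger scales. Summing over `log log N` disjoint ranges gives the result.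
-/

namespace Pool.Agent.Results.MP_005f52_nt.PrimesInTrajectories

/-- The Syracuse map on the odd integers. -/
def Syr (m : ℤ) : ℤ := (3 * m + 1) / 2 ^ padicValInt 2 (3 * m + 1)

/-- **Primes in the orbits of negative odd integers.** For all `q ≥ 1` and all `a` prime to `q` there
are `c > 0` and `N₀` such that for all `N ≥ N₀` at least `c N` of the odd `n` with `-N ≤ n < 0` have at
least `c log log N` distinct terms `-p`, `p` a prime `≡ a` modulo `q`, in their orbit
`n, Syr n, Syr² n, …`. -/
theorem result (q a : ℕ) (hq : 1 ≤ q) (ha : Nat.Coprime a q) :
    ∃ c : ℝ, 0 < c ∧ ∃ N₀ : ℕ, ∀ N : ℕ, N₀ ≤ N →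
      c * N ≤ ({n : ℤ | Odd n ∧ -(N : ℤ) ≤ n ∧ n < 0 ∧ ∃ F : Finset ℕ,
        c * Real.log (Real.log N) ≤ F.card ∧
        ∀ p ∈ F, p.Prime ∧ p ≡ a [MOD q] ∧ ∃ k, Syr^[k] n = -(p : ℤ)}.ncard : ℝ) :=
  Pool.Agent.H48N.prime_part q a hq ha

end Pool.Agent.Results.MP_005f52_nt.PrimesInTrajectories
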