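import Pool.Agent.H48T.Neg

/-!
# The threshold for sets that almost all Syracuse orbits avoid

Which sets of integers do almost all orbits avoid, if nothing but the size of the set is known? The
answer is given by the power of the logarithm: sets with at most `x / (log x) ^ U` elements up to `x`
are avoided by almost all orbits, until these have reached bounded values, if `U > 2`; for every
`U < 2` there is such a set that is met by almost all orbits.
-/

set_option autoImplicit false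

namespace Pool.Agent.Results.MP_005f52_nt.ThinSetsThreshold

/-- the Syracuse map on the odd integers -/
def Syr (N : ℤ) : ℤ := (3 * N + 1) / 2 ^ padicValInt 2 (3 * N + 1)

/-- For every `x ≥ y` the set `A` has at most `x / (log x) ^ U` elements in `[y, x]`. -/
def Thin (U y : ℝ) (A : Set ℕ) : Prop :=
  ∀ x : ℝ, y ≤ x → ({a : ℕ | a ∈ A ∧ y ≤ a ∧ (a : ℝ) ≤ x}.ncard : ℝ) ≤ x / (Real.log x) ^ U

/-- The orbit of `n` has a term whose absolute value is in `A`, before its first term of absolute value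
less than `y`. -/
def Meets (A : Set ℕ) (y : ℝ) (n : ℤ) : Prop :=
  ∃ k : ℕ, (Syr^[k] n).natAbs ∈ A ∧ ∀ j ≤ k, y ≤ ((Syr^[j] n).natAbs : ℝ)

/-- (1) Let `0 ≤ κ < U / 2 - 1`. There is `K` such that for all `y ≥ 2`, all sets `A` with at most
`x / (log x) ^ U` elements in `[y, x]` for all `x ≥ y`, and all `N`: at most `K N / (log y) ^ κ` of the
odd `n` with `-N ≤ n < 0` have an orbit which meets `-A` before it takes a value above `-y`.
(2) For every `U < 2` there are `y ≥ 2` and `A` with at most `x / (log x) ^ U` elements in `[y, x]`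
for all `x ≥ y` such that all but `o(N)` of the odd `n` with `-N ≤ n < 0` have an orbit which meets
`-A` before it takes a value above `-|n| ^ 0.6`. -/
theorem result :
    (∀ U κ : ℝ, 0 ≤ κ → κ < U / 2 - 1 → ∃ K : ℝ, ∀ y : ℝ, 2 ≤ y → ∀ A : Set ℕ, Thin U y A → ∀ N : ℕ,
      ({n : ℤ | Odd n ∧ -(N : ℤ) ≤ n ∧ n < 0 ∧ Meets A y n}.ncard : ℝ) ≤ K * N / (Real.log y) ^ κ) ∧
    (∀ U : ℝ, U < 2 → ∃ (A : Set ℕ) (y : ℝ), 2 ≤ y ∧ Thin U y A ∧ ∀ ε : ℝ, 0 < ε → ∃ N₀ : ℕ,
      ∀ N : ℕ, N₀ ≤ N →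
        ({n : ℤ | Odd n ∧ -(N : ℤ) ≤ n ∧ n < 0 ∧ ¬ Meets A ((n.natAbs : ℝ) ^ (0.6 : ℝ)) n}.ncard : ℝ) ≤
          ε * N) := by
  refine ⟨?_, ?_⟩
  · intro U κ hκ hU
    obtain ⟨K, h⟩ := Pool.Agent.H48T.neg_thin hκ hU
    exact ⟨K, fun y hy A hA N => h y hy A hA N⟩
  · intro U hU
    obtain ⟨A, y, hy, h1, h2⟩ := Pool.Agent.H48T.neg_hot hU
    exact ⟨A, y, hy, h1, h2⟩

end Pool.Agent.Results.MP_005f52_nt.ThinSetsThreshold
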